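import Pool.Agent.W560.HP.Stm

/-! Project HP: maps between purely transcendental extensions. -/

set_option autoImplicit false

namespace Pool.Agent.W240.HP

open MvPolynomial

theorem lift : W560.HP.S_LIFT := by
  intro k F M ι _ _ _ _ _ x y hx hy htop
  let e1 := hx.aevalEquivField
  let g : FractionRing (MvPolynomial ι k) →ₐ[k] M :=
    (IntermediateField.val _).comp hy.aevalEquivField.toAlgHom
  let e2 : F ≃ₐ[k] IntermediateField.adjoin k (Set.range x) :=
    (IntermediateField.topEquiv.symm).trans (IntermediateField.equivOfEq htop.symm)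
  refine ⟨g.comp ((e2.trans e1.symm).toAlgHom), fun i => ?_⟩
  have h1 : e1 (algebraMap (MvPolynomial ι k) (FractionRing (MvPolynomial ι k)) (X i)) =
      e2 (x i) := by
    apply Subtype.ext
    rw [hx.aevalEquivField_algebraMap_apply_coe, aeval_X]
    rfl
  have h2 : e1.symm (e2 (x i)) =
      algebraMap (MvPolynomial ι k) (FractionRing (MvPolynomial ι k)) (X i) := by
    rw [← h1, AlgEquiv.symm_apply_apply]
  change g (e1.symm (e2 (x i))) = y i
  rw [h2]
  change ((hy.aevalEquivField (algebraMap (MvPolynomial ι k) (FractionRing (MvPolynomial ι k))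
    (X i)) : IntermediateField.adjoin k (Set.range y)) : M) = y i
  rw [hy.aevalEquivField_algebraMap_apply_coe, aeval_X]

end Pool.Agent.W240.HP
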